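import Pool.Agent.H.MP_d52dcb_lc.Tree

namespace Pool.Agent.H.MP_d52dcb_lc

open Classical Pool.Agent.Lib.PR Pool.Agent.Lib.KAPI Nat.Partrec Encodable

attribute [local irreducible] Primrec Computable

variable {α β : Type} [Primcodable α] [Primcodable β]

def Pi2 (p : α → Prop) : Prop := ∃ Q : α × ℕ → Prop, REPred Q ∧ ∀ a, p a ↔ ∀ y, Q (a, y)

theorem Pi2.re {p : α → Prop} (h : REPred p) : Pi2 p :=
  ⟨_, re_cmp h Prod.fst (by fun_prop), fun _ => by simp⟩

theorem Pi2.cmp {p : β → Prop} (h : Pi2 p) (f : α → β) (hf : Computable f) : Pi2 fun a => p (f a) :=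
  h.elim fun _ h => ⟨_, re_cmp h.1 (fun a : α × ℕ => (f a.1, a.2)) (by fun_prop), fun _ => h.2 _⟩

theorem Pi2.and {p q : α → Prop} (h : Pi2 p) (k : Pi2 q) : Pi2 fun a => p a ∧ q a :=
  h.elim fun _ h => k.elim fun _ k => ⟨_, re_and h.1 k.1, fun a => by
    simp only [h.2 a, k.2 a, forall_and]⟩

theorem Pi2.imp {p q : α → Prop} (h : REPred fun a => ¬ p a) (k : Pi2 q) : Pi2 fun a => p a → q a :=
  k.elim fun _ k => ⟨_, re_or (re_cmp h Prod.fst (by fun_prop)) k.1, fun a => by
    simp only [k.2 a, ← imp_iff_not_or]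
    exact forall_comm⟩

theorem Pi2.fa [Inhabited β] {R : α → β → Prop} (h : Pi2 fun p : α × β => R p.1 p.2) :
    Pi2 fun a => ∀ b, R a b :=
  h.elim fun Q h => ⟨_, re_cmp h.1 (fun a : α × ℕ =>
    ((a.1, (decode (α := β) a.2.unpair.1).getD default), a.2.unpair.2)) (by fun_prop), fun a =>
      ⟨fun k _ => (h.2 (a, _)).1 (k _) _, fun k b => (h.2 (a, b)).2 fun y => by
        simpa using k (Nat.pair (encode b) y)⟩⟩

@[fun_prop] theorem p_slt {f h : α → Str} (hf : Primrec f) (hh : Primrec h) :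
    Primrec fun a => cd (lt (f a) (h a)) := by
  unfold lt
  fun_prop

theorem re_pre {c : α → Code} {s : α → Str} (hc : Primrec c) (hs : Primrec s) :
    REPred fun a => Pre (c a) (s a) :=
  re_ball (R := fun a i => encode ((s a).getD i false) ∈ (c a).eval i)
    (re_cmp (re_graph (M := fun p : Code × ℕ => p.1.eval p.2) Code.eval_part)
      (fun p : α × ℕ => ((c p.1, p.2), encode ((s p.1).getD p.2 false))) (by fun_prop)) (by fun_prop)

variable {T : Set Str} (hT : ComputablePred fun σ : Str => σ ∈ T)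
include hT

theorem re_in {s : α → Str} (hs : Primrec s) : REPred fun a => s a ∈ T :=
  re_cmp hT.to_re s hs.to_comp

theorem re_out {s : α → Str} (hs : Primrec s) : REPred fun a => ¬ s a ∈ T :=
  re_cmp hT.not.to_re s hs.to_comp

theorem pi_iso {s : α → Str} (hs : Primrec s) : Pi2 fun a => Iso T (s a) :=
  .and (.re (re_in hT hs)) (.fa (.imp (re_out hT (by fun_prop))
    (.fa (.imp (re_out hT (by fun_prop)) (.re (re_prim (by fun_prop)))))))

theorem pi_nb {s : Str → Str → Prop} {U : α → Str → Prop}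
    (hs : Primrec fun p : Str × Str => cd (s p.1 p.2))
    (hU : Primrec fun p : α × Str => cd (U p.1 p.2)) : Pi2 fun a => NB T s (U a) :=
  .fa (.imp (re_out hT (by fun_prop)) (.imp (re_prim (p_dnot hU)) (.re
    (re_exists (re_and (re_in hT (by fun_prop)) (re_exists (re_and (re_in hT (by fun_prop))
      (re_prim (p_dand (by fun_prop) (p_dand
        (p_comp (g := fun a : ((α × Str) × Str) × Str => (a.1.2, a.2)) hs (by fun_prop))
        (p_comp (g := fun a : ((α × Str) × Str) × Str => (a.1.1.1, a.2)) hU (by fun_prop))))))))))))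

theorem pi_bf : Pi2 fun a : List Str × ℕ => BF T (a.1.getD · []) a.2 :=
  .and (.fa (.imp (re_prim (by fun_prop)) (.and (.re (re_prim (by fun_prop)))
    (.fa (.imp (re_out hT (by fun_prop)) (.re (re_prim (by fun_prop))))))))
    (.and (pi_nb hT (U := fun (a : List Str × ℕ) ρ => lt ρ (a.1.getD 0 [])) (by fun_prop) (by fun_prop))
      (pi_nb hT (U := fun (a : List Str × ℕ) ρ => lt (a.1.getD a.2 []) ρ) (by fun_prop) (by fun_prop)))

theorem pi_qf : Pi2 fun a : Code × Str × Str => QF T (Pre a.1) a.2.1 a.2.2 :=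
  .and (.fa (.re (re_exists (re_and (re_pre (by fun_prop) (by fun_prop)) (re_and
    (re_prim (by fun_prop)) (re_exists (re_and (re_in hT (by fun_prop)) (re_prim (by fun_prop)))))))))
    (.and (.fa (.imp (re_out hT (by fun_prop)) (.fa (.imp (re_prim (by fun_prop)) (.re (re_or
      (re_exists (re_and (re_pre (by fun_prop) (by fun_prop)) (re_prim (by fun_prop))))
      (re_exists (re_and (re_in hT (by fun_prop)) (re_exists (re_and (re_in hT (by fun_prop))
        (re_and (re_prim (by fun_prop)) (re_and (re_prim (by fun_prop)) (re_exists (re_and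
          (re_pre (by fun_prop) (by fun_prop)) (re_prim (by fun_prop))))))))))))))))
      (.re (re_exists (re_and (re_pre (by fun_prop) (by fun_prop)) (re_prim (by fun_prop))))))

theorem pi_gf : Pi2 fun a : ℕ × List Str × List Str × Code =>
    Ctx.GF T a.1 a.2.1 a.2.2.1 a.2.2.2 :=
  .and (.fa (.imp (re_prim (by fun_prop)) (pi_iso hT (by fun_prop))))
    (.and (.fa (.imp (re_prim (by fun_prop)) (pi_iso hT (by fun_prop))))
      (.and ((pi_bf hT).cmp (fun a : ℕ × List Str × List Str × Code => (a.2.1, a.1)) (by fun_prop))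
        (.and ((pi_bf hT).cmp (fun a : ℕ × List Str × List Str × Code => (a.2.2.1, a.1 + 1))
          (by fun_prop)) ((pi_qf hT).cmp (fun a : ℕ × List Str × List Str × Code =>
            (a.2.2.2, a.2.1.getD a.1 [], a.2.2.1.getD 0 [])) (by fun_prop)))))

omit hT

/-- the diagonal condition -/
def Cn (n : ℕ) : Prop :=
  ∃ x : ℕ, ∀ y : ℕ, ∃ z, (Code.evaln z (Denumerable.ofNat Code n) (encode (n, x, y))).isSome

theorem diag {L : Type} [LinearOrder L] {ψ : L → ℕ → Bool} (H : Ctx T ψ)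
    (hT : ComputablePred fun σ : Str => σ ∈ T) : ∃ n, Gap L n ↔ Cn n := by
  obtain ⟨Q, h1, h2⟩ := pi_gf hT
  let d : ℕ → List Str × List Str × Code := fun x => (decode x).getD default
  have h3 := re_cmp h1 (fun a : ℕ × ℕ × ℕ => ((a.1, d a.2.1), a.2.2)) (by unfold d; fun_prop)
  obtain ⟨c, hc⟩ := Code.exists_code.1 h3
  have key : ∀ a : ℕ × ℕ × ℕ, Q ((a.1, d a.2.1), a.2.2) ↔
      ∃ z, (Code.evaln z c (encode a)).isSome := fun a => by
    have : Q ((a.1, d a.2.1), a.2.2) ↔ ∃ x, x ∈ c.eval (encode a) := by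
      rw [hc]
      simp only [encodek]
      simp [Part.mem_assert_iff]
    simp only [this, Code.evaln_complete, Option.isSome_iff_exists]
    exact exists_comm
  refine ⟨encode c, ?_⟩
  rw [H.gap_iff, Cn, Denumerable.ofNat_encode]
  exact ⟨fun ⟨w, hw⟩ => ⟨encode w, fun y => (key (_, _, y)).1 (by
    simpa only [d, encodek, Option.getD_some] using (h2 (_, w)).1 hw y)⟩, fun ⟨x, hx⟩ => ⟨d x, (h2 (_, d x)).2 fun y =>
      (key (_, x, y)).2 (hx y)⟩⟩

def Qz (n x y z : ℕ) : Prop :=
  ∀ v < y, (Code.evaln z (Denumerable.ofNat Code n) (encode (n, x, v))).isSome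

def Fire (n x t : ℕ) : Prop := Qz n x t.unpair.1 t.unpair.2 ∧ ∀ z < t.unpair.2, ¬ Qz n x t.unpair.1 z

noncomputable def g0 (n s : ℕ) : ℕ := if Fire n s.unpair.1 s.unpair.2 then s.unpair.1 else s

noncomputable def gg (n s : ℕ) : ℕ := g0 n ((s + 1) / 2)

@[fun_prop] theorem p_gg {f h : α → ℕ} (hf : Primrec f) (hh : Primrec h) :
    Primrec fun a => gg (f a) (h a) := by
  unfold gg g0 Fire Qz
  fun_prop

theorem gg_m (n t : ℕ) : gg n (2 * t + 2) ≤ gg n (2 * t + 1) := by
  rw [gg, gg, show (2 * t + 2 + 1) / 2 = (2 * t + 1 + 1) / 2 by omega]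

theorem fin_of {n} (h : Cn n) : {s | dth gg n s = ⊤}.Finite := by
  obtain ⟨x, hx⟩ := h
  have k : ∀ y, ∃ u, y < u ∧ gg n u ≤ x := fun y => by
    have e : ∃ z, Qz n x (y + 1) z := by
      choose z hz using hx
      refine ⟨∑ v ∈ Finset.range (y + 1), z v, fun v hv => ?_⟩
      obtain ⟨a, ha⟩ := Option.isSome_iff_exists.1 (hz v)
      exact Option.isSome_iff_exists.2 ⟨a, Code.evaln_mono (Finset.single_le_sum
        (fun _ _ => Nat.zero_le _) (Finset.mem_range.2 hv)) ha⟩
    have f : Fire n x (Nat.pair (y + 1) (Nat.find e)) := by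
      simp only [Fire, Nat.unpair_pair]
      exact ⟨Nat.find_spec e, fun z => Nat.find_min e⟩
    refine ⟨2 * Nat.pair x (Nat.pair (y + 1) (Nat.find e)), ?_, ?_⟩
    · have := Nat.left_le_pair (y + 1) (Nat.find e)
      have := Nat.right_le_pair x (Nat.pair (y + 1) (Nat.find e))
      omega
    · rw [gg, show ∀ a, (2 * a + 1) / 2 = a from fun a => by omega]
      simp [g0, f]
  refine Set.Finite.of_finite_image (f := gg n) ((Set.finite_lt_nat x).subset ?_) fun a ha b hb e => ?_
  · rintro _ ⟨s, hs, rfl⟩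
    obtain ⟨u, h1, h2⟩ := k s
    exact ((dth_top gg).1 hs u h1).trans_le h2
  · by_contra c
    rcases Nat.lt_or_gt_of_ne c with c | c
    · exact ((dth_top gg).1 ha b c).ne e
    · exact ((dth_top gg).1 hb a c).ne e.symm

theorem inf_of {n} (h : ¬ Cn n) : {s | dth gg n s = ⊤}.Infinite := by
  have f : ∀ x, {t | Fire n x t}.Finite := fun x => by
    obtain ⟨y, hy⟩ := not_forall.1 fun k => h ⟨x, k⟩
    refine Set.Finite.of_finite_image (f := fun t => t.unpair.1)
      ((Set.finite_le_nat y).subset ?_) fun a ha b hb e => ?_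
    · rintro _ ⟨t, ht, rfl⟩
      exact not_lt.1 fun c => hy ⟨_, ht.1 y c⟩
    · have e : a.unpair.1 = b.unpair.1 := e
      have : a.unpair.2 = b.unpair.2 := le_antisymm (not_lt.1 fun c => ha.2 _ c (e ▸ hb.1))
        (not_lt.1 fun c => hb.2 _ c (e ▸ ha.1))
      rw [← Nat.pair_unpair a, e, this, Nat.pair_unpair]
  have k : ∀ m, {s | g0 n s ≤ m}.Finite := fun m => by
    refine ((Set.finite_le_nat m).union ((Set.finite_le_nat m).biUnion fun x _ =>
      (f x).image (Nat.pair x))).subset fun s hs => ?_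
    simp only [Set.mem_ofPred_eq, g0] at hs
    split_ifs at hs with c
    · exact .inr (Set.mem_biUnion hs ⟨_, c, Nat.pair_unpair s⟩)
    · exact .inl hs
  have k' : ∀ m, {s | gg n s ≤ m}.Finite := fun m => by
    obtain ⟨b, hb⟩ := (k m).bddAbove
    exact (Set.finite_le_nat (2 * b)).subset fun s hs => by
      have := hb (show g0 n ((s + 1) / 2) ≤ m from hs)
      show s ≤ _
      omega
  refine Set.infinite_of_forall_exists_gt fun N => ?_
  have e : ∃ m, ∃ s, N < s ∧ gg n s ≤ m := ⟨_, N + 1, Nat.lt_succ_self _, le_rfl⟩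
  obtain ⟨s, ⟨h1, h2⟩, h3⟩ := Set.exists_max_image {s | N < s ∧ gg n s ≤ Nat.find e} id
    ((k' _).subset fun _ h => h.2) (Nat.find_spec e)
  exact ⟨s, (dth_top gg).2 fun u hu => not_le.1 fun c =>
    (h3 u ⟨h1.trans hu, c.trans h2⟩).not_gt hu, h1⟩

theorem no_tree {ψ : LL gg → ℕ → Bool} (H : Ctx T ψ) (hT : ComputablePred fun σ : Str => σ ∈ T) :
    False := by
  obtain ⟨n, hn⟩ := diag H hT
  rw [gap_iff gg_m] at hn
  by_cases h : Cn n
  · exact hn.2 h (fin_of h)
  · exact h (hn.1 (inf_of h))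

end Pool.Agent.H.MP_d52dcb_lc
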