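import Mathlib

namespace Pool.Agent.H.MP_d52dcb_lc

open Classical

/-- `x 0, …, x n` is a maximal block of consecutive elements -/
def Blk {L : Type} [LinearOrder L] (n : ℕ) (x : ℕ → L) : Prop :=
  (∀ i < n, x i ⋖ x (i + 1)) ∧ (∀ y, ¬ y ⋖ x 0) ∧ ∀ y, ¬ x n ⋖ y

/-- a gap between a block with `n + 1` elements and a block with `n + 2` elements -/
def Gap (L : Type) [LinearOrder L] (n : ℕ) : Prop :=
  ∃ x x' : ℕ → L, Blk n x ∧ Blk (n + 1) x' ∧ ∃ I : L → Prop, (∀ a b, a < b → I b → I a) ∧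
    I (x n) ∧ ¬ I (x' 0) ∧ (∀ a, I a → ∃ b, I b ∧ a < b) ∧ ∀ a, ¬ I a → ∃ b, ¬ I b ∧ b < a

variable (g : ℕ → ℕ → ℕ)

noncomputable def dth (n s : ℕ) : ℕ∞ :=
  if h : ∃ u, s < u ∧ g n u ≤ g n s then (Nat.find h : ℕ) else ⊤

theorem dth_le {n s t : ℕ} : dth g n s ≤ t ↔ ∃ u ≤ t, s < u ∧ g n u ≤ g n s := by
  unfold dth
  split_ifs with h
  · rw [Nat.cast_le, Nat.find_le_iff]
  · simp only [top_le_iff, ENat.natCast_ne_top, false_iff]
    exact fun ⟨u, _, hu⟩ => h ⟨u, hu⟩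

theorem lt_dth {n s : ℕ} : (s : ℕ∞) < dth g n s :=
  not_le.1 fun h => ((dth_le g).1 h).elim fun _ h => by omega

theorem dth_top {n s : ℕ} : dth g n s = ⊤ ↔ ∀ u, s < u → g n s < g n u := by
  unfold dth
  split_ifs with h
  · simp only [ENat.natCast_ne_top, false_iff]
    exact fun h' => h.elim fun u hu => by have := h' u hu.1; omega
  · simp only [true_iff]
    exact fun u hu => not_le.1 fun h' => h ⟨u, hu, h'⟩

theorem dth_cmp {n s t : ℕ} (h : s < t) :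
    (dth g n s ≤ t → dth g n s < dth g n t) ∧ (¬ dth g n s ≤ t → dth g n t ≤ dth g n s) := by
  refine ⟨fun a => a.trans_lt (lt_dth g), fun a => ?_⟩
  induction' hd : dth g n s with v
  · exact le_top
  · obtain ⟨u, h1, h2, h3⟩ := (dth_le g).1 hd.le
    rw [dth_le] at a ⊢
    have b : ¬ g n t ≤ g n s := fun b => a ⟨t, le_rfl, h, b⟩
    have c : ¬ u ≤ t := fun b => a ⟨u, b, h2, h3⟩
    exact ⟨u, h1, by omega, by omega⟩

abbrev E := ℕ × ℕ × ℕ

def Dm (a : E) : Prop := a.2.1 ≤ 3 ∧ (a.2.1 = 1 → a.2.2 ≤ a.1)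

noncomputable def c2 (a : E) : ℕ∞ := if a.2.1 ≤ 2 then (a.2.1 : ℕ) else dth g a.1 a.2.2 + 2

noncomputable def cls (a : E) : ℕ ×ₗ ℕ∞ := toLex (a.1, c2 g a)

def zz (a : E) : ℤ := if a.2.1 ≤ 1 then a.2.2 else -a.2.2

noncomputable def key (a : E) : (ℕ ×ₗ ℕ∞) ×ₗ ℤ := toLex (cls g a, zz a)

theorem c2_ge {a : E} (h : ¬ a.2.1 ≤ 2) : ((a.2.2 + 3 : ℕ) : ℕ∞) ≤ c2 g a := by
  rw [c2, if_neg h]
  have := Order.add_one_le_of_lt (lt_dth g (n := a.1) (s := a.2.2))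
  calc ((a.2.2 + 3 : ℕ) : ℕ∞) = (a.2.2 + 1) + 2 := by push_cast; ring
    _ ≤ _ := by gcongr

theorem c2_part {a b : E} (ha : a.2.1 ≤ 3) (hb : b.2.1 ≤ 3) (h : a.2.1 < b.2.1) :
    c2 g a < c2 g b := by
  have e : c2 g a = (a.2.1 : ℕ) := if_pos (by omega)
  by_cases k : b.2.1 ≤ 2
  · rw [e, c2, if_pos k]
    exact_mod_cast h
  · refine lt_of_lt_of_le ?_ (c2_ge g k)
    rw [e]
    exact_mod_cast (by omega)

theorem cls_lt {a b : E} : cls g a < cls g b ↔ a.1 < b.1 ∨ a.1 = b.1 ∧ c2 g a < c2 g b :=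
  Prod.Lex.toLex_lt_toLex

theorem cls_eq {a b : E} : cls g a = cls g b ↔ a.1 = b.1 ∧ c2 g a = c2 g b := by
  simp [cls]

theorem cls_part {a b : E} (ha : a.2.1 ≤ 3) (hb : b.2.1 ≤ 3) (h : cls g a = cls g b) :
    a.1 = b.1 ∧ a.2.1 = b.2.1 := by
  obtain ⟨h1, h2⟩ := (cls_eq g).1 h
  refine ⟨h1, ?_⟩
  by_contra k
  rcases Nat.lt_or_gt_of_ne k with k | k
  · exact (c2_part g ha hb k).ne h2
  · exact (c2_part g hb ha k).ne h2.symm

theorem key_lt {a b : E} : key g a < key g b ↔ cls g a < cls g b ∨ cls g a = cls g b ∧ zz a < zz b :=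
  Prod.Lex.toLex_lt_toLex

theorem key_inj {a b : E} (ha : a.2.1 ≤ 3) (hb : b.2.1 ≤ 3) (h : key g a = key g b) : a = b := by
  obtain ⟨h1, h2⟩ : cls g a = cls g b ∧ zz a = zz b := by simpa [key] using h
  obtain ⟨h3, h4⟩ := cls_part g ha hb h1
  refine Prod.ext h3 (Prod.ext h4 ?_)
  unfold zz at h2
  split_ifs at h2 <;> omega

/-- the decidable description of the order -/
def Rl (a b : E) : Prop := a.1 < b.1 ∨ a.1 = b.1 ∧ (a.2.1 < b.2.1 ∨ a.2.1 = b.2.1 ∧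
  (a.2.1 ≤ 1 ∧ a.2.2 < b.2.2 ∨ a.2.1 = 2 ∧ b.2.2 < a.2.2 ∨ a.2.1 = 3 ∧
    (a.2.2 < b.2.2 ∧ (∃ u ≤ b.2.2, a.2.2 < u ∧ g a.1 u ≤ g a.1 a.2.2) ∨
      b.2.2 < a.2.2 ∧ ¬ ∃ u ≤ a.2.2, b.2.2 < u ∧ g a.1 u ≤ g a.1 b.2.2)))

theorem rl_key {a b : E} (ha : a.2.1 ≤ 3) (hb : b.2.1 ≤ 3) (h : Rl g a b) : key g a < key g b := by
  obtain ⟨n, j, s⟩ := a
  obtain ⟨n', j', t⟩ := b
  rw [key_lt, cls_lt, cls_eq]
  rcases h with h | ⟨h, k | ⟨k, h'⟩⟩
  · exact .inl (.inl h)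
  · exact .inl (.inr ⟨h, c2_part g ha hb k⟩)
  dsimp only at h k ha hb h'
  subst h k
  rw [← dth_le, ← dth_le] at h'
  rcases h' with ⟨h, k⟩ | ⟨rfl, k⟩ | ⟨rfl, ⟨h, k⟩ | ⟨h, k⟩⟩
  · refine .inr ⟨⟨rfl, ?_⟩, ?_⟩
    · simp [c2, show j ≤ 2 by omega]
    · simp [zz, h, k]
  · exact .inr ⟨⟨rfl, by simp [c2]⟩, by simp [zz, k]⟩
  · refine .inl (.inr ⟨rfl, ?_⟩)
    simp only [c2, show ¬ 3 ≤ 2 by omega, if_false]
    exact (ENat.add_lt_add_iff_right (by simp)).2 ((dth_cmp g h).1 k)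
  · rcases ((dth_cmp g h).2 k).lt_or_eq with e | e
    · refine .inl (.inr ⟨rfl, ?_⟩)
      simp only [c2, show ¬ 3 ≤ 2 by omega, if_false]
      exact (ENat.add_lt_add_iff_right (by simp)).2 e
    · exact .inr ⟨⟨rfl, by simp [c2, e]⟩, by simp [zz, h]⟩

theorem rl_tot {a b : E} (ha : a.2.1 ≤ 3) (h : a ≠ b) : Rl g a b ∨ Rl g b a := by
  obtain ⟨n, j, s⟩ := a
  obtain ⟨n', j', t⟩ := b
  unfold Rl
  dsimp only at ha ⊢
  by_cases e : n = n'
  · subst e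
    by_cases e : j = j'
    · subst e
      have : s ≠ t := fun e => h (by rw [e])
      by_cases p : ∃ u ≤ t, s < u ∧ g n u ≤ g n s <;> by_cases q : ∃ u ≤ s, t < u ∧ g n u ≤ g n t <;>
        simp only [p, q, true_and, and_true, and_false, not_true, not_false_iff] <;> omega
    · rcases Nat.lt_or_gt_of_ne e with e | e
      · exact .inl (.inr ⟨rfl, .inl e⟩)
      · exact .inr (.inr ⟨rfl, .inl e⟩)
  · exact (Nat.lt_or_gt_of_ne e).imp .inl .inl

theorem rl_iff {a b : E} (ha : a.2.1 ≤ 3) (hb : b.2.1 ≤ 3) : Rl g a b ↔ key g a < key g b := by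
  refine ⟨rl_key g ha hb, fun h => ?_⟩
  refine (rl_tot g ha fun e => by simp [e] at h).resolve_right fun k => ?_
  exact lt_asymm h (rl_key g hb ha k)

theorem scat {W : Type} [LinearOrder W] [WellFoundedLT W] (e : ℚ → W ×ₗ ℤ) : ¬ StrictMono e := by
  intro h
  obtain ⟨q, hq⟩ : ∃ q, ∀ r, ¬ (ofLex (e r)).1 < (ofLex (e q)).1 :=
    ⟨_, fun r => Function.not_lt_argmin (fun q => (ofLex (e q)).1) r⟩
  have k : ∀ r s, r < s → s ≤ q → (ofLex (e r)).2 < (ofLex (e s)).2 := fun r s a b => by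
    rcases Prod.Lex.lt_iff.1 (h a) with c | c
    · refine (hq r (c.trans_le ?_)).elim
      rcases Prod.Lex.le_iff.1 (h.monotone b) with c | c
      · exact c.le
      · exact c.1.le
    · exact c.2
  have p : ∀ n : ℕ, (0 : ℚ) < 1 / (n + 1) := fun n => by positivity
  have : ∀ n : ℕ, (ofLex (e (q - 1))).2 + n ≤ (ofLex (e (q - 1 / (n + 1)))).2 := fun n => by
    induction n with
    | zero => simp
    | succ n ih =>
      have := k (q - 1 / (n + 1)) (q - 1 / ((n + 1 : ℕ) + 1)) (by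
        have : (1 : ℚ) / ((n + 1 : ℕ) + 1) < 1 / (n + 1) :=
          one_div_lt_one_div_of_lt (by positivity) (by push_cast; linarith)
        linarith) (by linarith [p (n + 1)])
      push_cast at this ⊢
      omega
  have a := this ((ofLex (e q)).2 - (ofLex (e (q - 1))).2).toNat
  have b := k _ q (sub_lt_self q (p ((ofLex (e q)).2 - (ofLex (e (q - 1))).2).toNat)) le_rfl
  omega

/-- the linear order -/
def LL (_ : ℕ → ℕ → ℕ) : Type := {a : E // Dm a}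

noncomputable instance : LinearOrder (LL g) :=
  LinearOrder.lift' (fun a => key g a.1) fun a b h => Subtype.ext (key_inj g a.2.1 b.2.1 h)

variable {g}

theorem lt_def {a b : LL g} :
    a < b ↔ cls g a.1 < cls g b.1 ∨ cls g a.1 = cls g b.1 ∧ zz a.1 < zz b.1 := key_lt g

theorem cls_mono {a b : LL g} (h : a ≤ b) : cls g a.1 ≤ cls g b.1 :=
  not_lt.1 fun k => h.not_gt (lt_def.2 (.inl k))

def mk (g : ℕ → ℕ → ℕ) (k i : ℕ) : LL g := ⟨(k, 1, min i k), by simp [Dm]⟩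
def om (g : ℕ → ℕ → ℕ) (k i : ℕ) : LL g := ⟨(k, 0, i), by simp [Dm]⟩
def st (g : ℕ → ℕ → ℕ) (k i : ℕ) : LL g := ⟨(k, 2, i), by simp [Dm]⟩
def aa (g : ℕ → ℕ → ℕ) (k i : ℕ) : LL g := ⟨(k, 3, i), by simp [Dm]⟩

theorem cls_mk {k i} : cls g (mk g k i).1 = toLex (k, 1) := by simp [cls, c2, mk]
theorem cls_om {k i} : cls g (om g k i).1 = toLex (k, 0) := by simp [cls, c2, om]
theorem cls_st {k i} : cls g (st g k i).1 = toLex (k, 2) := by simp [cls, c2, st]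
theorem cls_aa {k i} : cls g (aa g k i).1 = toLex (k, dth g k i + 2) := by simp [cls, c2, aa]

theorem of_cls {a b : LL g} (h : cls g a.1 = cls g b.1) : a.1 = (b.1.1, b.1.2.1, a.1.2.2) :=
  (cls_part g a.2.1 b.2.1 h).elim fun h k => by rw [← h, ← k]

theorem cov {a b : LL g} (h : cls g a.1 = cls g b.1) (k : zz b.1 = zz a.1 + 1) : a ⋖ b := by
  refine ⟨lt_def.2 (.inr ⟨h, by omega⟩), fun c h1 h2 => ?_⟩
  have e : cls g c.1 = cls g b.1 := (cls_mono h2.le).antisymm (h ▸ cls_mono h1.le)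
  rcases lt_def.1 h1 with h1 | h1
  · exact h1.ne (h.trans e.symm)
  rcases lt_def.1 h2 with h2 | h2
  · exact h2.ne e
  omega

theorem cov_mk {k i} (h : i < k) : mk g k i ⋖ mk g k (i + 1) :=
  cov (cls_mk.trans cls_mk.symm) (by simp [zz, mk, h.le, Nat.succ_le_of_lt h])

theorem lex1 {w : ℕ ×ₗ ℕ∞} {k : ℕ} {j j' : ℕ∞} (e : j' = j + 1) (h : w < toLex (k, j')) :
    w ≤ toLex (k, j) := by
  subst e
  rcases Prod.Lex.lt_iff.1 h with h | h
  · exact Prod.Lex.le_iff.2 (.inl h)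
  · refine Prod.Lex.le_iff.2 (.inr ⟨h.1, ?_⟩)
    exact Order.le_of_lt_add_one h.2

theorem le_last {k} {a : LL g} (h : cls g a.1 < toLex (k, 2)) : a ≤ mk g k k := by
  rcases (lex1 (j := 1) (by norm_num) h).lt_or_eq with h | h
  · exact (lt_def.2 (.inl (by rwa [cls_mk]))).le
  · have e : cls g a.1 = cls g (mk g k k).1 := by rwa [cls_mk]
    refine not_lt.1 fun c => ?_
    rcases lt_def.1 c with c | c
    · exact c.ne e.symm
    · have := a.2.2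
      have c := c.2
      rw [of_cls e] at this c
      simp [mk, zz] at this c
      omega

theorem nopred {k} (y : LL g) : ¬ y ⋖ mk g k 0 := fun h => by
  have l : om g k (y.1.2.2 + 1) < mk g k 0 := lt_def.2 (.inl (by
    rw [cls_om, cls_mk]
    exact Prod.Lex.toLex_lt_toLex.2 (.inr ⟨rfl, by simp⟩)))
  refine h.2 (lt_def.2 ?_) l
  rcases lt_def.1 h.1 with c | c
  · rw [cls_mk] at c
    rcases (lex1 (j := 0) (by norm_num) c).lt_or_eq with c | c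
    · exact .inl (by rwa [cls_om])
    · have e : cls g y.1 = cls g (om g k (y.1.2.2 + 1)).1 := by rwa [cls_om]
      refine .inr ⟨e, ?_⟩
      rw [of_cls e]
      simp [zz, om]
  · have e := c.2
    rw [of_cls c.1] at e
    simp [zz, mk] at e
    omega

theorem last_lt {k i} : mk g k k < st g k i := lt_def.2 (.inl (by
  rw [cls_st, cls_mk]
  exact Prod.Lex.toLex_lt_toLex.2 (.inr ⟨rfl, by simp⟩)))

theorem nosucc {k} (y : LL g) : ¬ mk g k k ⋖ y := fun h => by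
  refine h.2 (last_lt (i := y.1.2.2 + 1)) (lt_def.2 ?_)
  rcases (not_lt.1 fun c => (le_last c).not_gt h.1).lt_or_eq with c | c
  · exact .inl (by rwa [cls_st])
  · have e : cls g y.1 = cls g (st g k (y.1.2.2 + 1)).1 := by rw [cls_st, c]
    refine .inr ⟨e.symm, ?_⟩
    rw [of_cls e]
    simp [zz, st]

theorem blk_mk (k) : Blk k (mk g k) := ⟨fun _ => cov_mk, nopred, nosucc⟩

variable (hm : ∀ n t, g n (2 * t + 2) ≤ g n (2 * t + 1))
include hm

theorem mortal {k} {a : LL g} (h : cls g a.1 < toLex (k, ⊤)) :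
    ∃ b : LL g, cls g b.1 < toLex (k, ⊤) ∧ cls g a.1 < cls g b.1 := by
  obtain ⟨t, ht⟩ : ∃ t : ℕ, cls g a.1 ≤ toLex (k, (t : ℕ∞)) := by
    rcases Prod.Lex.lt_iff.1 h with h | h
    · exact ⟨0, Prod.Lex.le_iff.2 (.inl h)⟩
    · obtain ⟨t, ht⟩ := ENat.ne_top_iff_exists.1 h.2.ne
      exact ⟨t, Prod.Lex.le_iff.2 (.inr ⟨h.1, ht.ge⟩)⟩
  have d : dth g k (2 * t + 1) ≤ (2 * t + 2 : ℕ) := (dth_le g).2 ⟨_, le_rfl, by omega, hm _ _⟩
  refine ⟨aa g k (2 * t + 1), ?_, ht.trans_lt ?_⟩ <;> rw [cls_aa] <;>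
    refine Prod.Lex.toLex_lt_toLex.2 (.inr ⟨rfl, ?_⟩)
  · exact lt_top_iff_ne_top.2 (by simpa using ne_top_of_le_ne_top (ENat.natCast_ne_top _) d)
  · refine lt_of_lt_of_le ?_ le_self_add
    exact lt_of_le_of_lt (Nat.cast_le.2 (by omega)) (lt_dth g)

omit hm in
theorem cut {I : LL g → Prop} (lo : ∀ a b, a < b → I b → I a) {a : LL g} (ha : ¬ I a)
    (nm : ∀ a, ¬ I a → ∃ b, ¬ I b ∧ b < a) : ∃ k j, (j = 2 ∨ j = ⊤ ∧ {s | dth g k s = ⊤}.Infinite) ∧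
      ∀ a, I a ↔ cls g a.1 < toLex (k, j) := by
  obtain ⟨y, hy, my⟩ : ∃ y : LL g, ¬ I y ∧ ∀ z : LL g, ¬ I z → cls g y.1 ≤ cls g z.1 := by
    let f : {y : LL g // ¬ I y} → ℕ ×ₗ ℕ∞ := fun y => cls g y.1.1
    have : Nonempty {y : LL g // ¬ I y} := ⟨⟨a, ha⟩⟩
    exact ⟨_, (Function.argmin f).2, fun z hz => Function.argmin_le f ⟨z, hz⟩⟩
  have ub : ∀ m : ℕ, ∃ z : LL g, ¬ I z ∧ cls g z.1 = cls g y.1 ∧ zz z.1 + m ≤ zz y.1 := fun m => by
    induction m with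
    | zero => exact ⟨y, hy, rfl, by simp⟩
    | succ m ih =>
      obtain ⟨z, h1, h2, h3⟩ := ih
      obtain ⟨b, h4, h5⟩ := nm z h1
      rcases lt_def.1 h5 with c | c
      · exact absurd (my b h4) (h2 ▸ c.not_ge)
      · exact ⟨b, h4, c.1.trans h2, by have := c.2; push_cast; omega⟩
  have ub' : ∀ m : ℕ, ∃ s, m ≤ s ∧ ¬ y.1.2.1 ≤ 1 ∧ c2 g (y.1.1, y.1.2.1, s) = c2 g y.1 := fun m => by
    obtain ⟨z, -, h2, h3⟩ := ub (m + y.1.2.2 + 1)
    have e := ((cls_eq g).1 h2).2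
    rw [of_cls h2] at h3 e
    simp only [zz] at h3
    refine ⟨z.1.2.2, ?_, ?_, e⟩ <;> split_ifs at h3 <;> omega
  refine ⟨y.1.1, c2 g y.1, ?_, fun b => ⟨fun h => ?_, fun h => by_contra fun k => h.not_ge (my b k)⟩⟩
  · by_cases e : y.1.2.1 ≤ 2
    · obtain ⟨_, -, h, -⟩ := ub' 0
      exact .inl (by rw [c2, if_pos e, show y.1.2.1 = 2 by omega]; rfl)
    · have t : c2 g y.1 = ⊤ := ENat.eq_top_iff_forall_ge.2 fun m => by
        obtain ⟨s, h1, -, h2⟩ := ub' m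
        exact h2 ▸ le_trans (by exact_mod_cast (by dsimp only; omega)) (c2_ge g e)
      refine .inr ⟨t, Set.infinite_of_forall_exists_gt fun m => ?_⟩
      obtain ⟨s, h1, -, h2⟩ := ub' (m + 1)
      rw [t, c2, if_neg e] at h2
      exact ⟨s, by simpa using h2, h1⟩
  · refine not_le.1 fun k => ?_
    obtain ⟨z, h1, h2, h3⟩ := ub ((zz y.1 - zz b.1).toNat + 1)
    refine h1 (lo _ _ (lt_def.2 ?_) h)
    rcases k.lt_or_eq with k | k
    · exact .inl (h2 ▸ k)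
    · exact .inr ⟨h2.trans k, by push_cast at h3; omega⟩

theorem last_of {x : LL g} (h : ∀ y, ¬ x ⋖ y) : ∃ k, x = mk g k k := by
  have u : x < om g (x.1.1 + 1) 0 := lt_def.2 (.inl ((cls_lt g).2 (.inl (Nat.lt_succ_self _))))
  obtain ⟨k, j, hj, e⟩ := cut (I := (· ≤ x)) (fun _ _ h k => h.le.trans k) u.not_ge fun a ha => by
    obtain ⟨c, h1, h2⟩ := (not_covBy_iff (not_le.1 ha)).1 (h a)
    exact ⟨c, h1.not_ge, h2⟩
  rcases hj with rfl | ⟨rfl, -⟩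
  · refine ⟨k, (le_last ((e x).1 le_rfl)).antisymm ((e _).2 ?_)⟩
    rw [cls_mk]
    exact Prod.Lex.toLex_lt_toLex.2 (.inr ⟨rfl, by simp⟩)
  · obtain ⟨b, h1, h2⟩ := mortal hm ((e x).1 le_rfl)
    exact absurd (cls_mono ((e b).2 h1)) h2.not_ge

theorem blk_uniq {n} {x : ℕ → LL g} (h : Blk n x) : x n = mk g n n ∧ x 0 = mk g n 0 := by
  obtain ⟨k, hk⟩ := last_of hm h.2.2
  have key : ∀ i ≤ n, i ≤ k → x (n - i) = mk g k (k - i) := fun i => by
    induction i with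
    | zero => exact fun _ _ => hk
    | succ i ih =>
      intro a b
      have c := h.1 (n - (i + 1)) (by omega)
      have d := cov_mk (g := g) (k := k) (i := k - (i + 1)) (by omega)
      rw [show n - (i + 1) + 1 = n - i by omega, ih (by omega) (by omega)] at c
      rw [show k - (i + 1) + 1 = k - i by omega] at d
      exact c.unique_left d
  obtain rfl : n = k := by
    by_contra e
    rcases Nat.lt_or_gt_of_ne e with e | e
    · have d := cov_mk (g := g) (k := k) (i := k - n - 1) (by omega)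
      rw [show k - n - 1 + 1 = k - n by omega, ← key n le_rfl e.le, Nat.sub_self] at d
      exact h.2.1 _ d
    · have c := h.1 (n - k - 1) (by omega)
      rw [show n - k - 1 + 1 = n - k by omega, key k e.le le_rfl, Nat.sub_self] at c
      exact nopred _ c
  exact ⟨hk, by simpa using key n le_rfl le_rfl⟩

theorem gap_iff (n : ℕ) : Gap (LL g) n ↔ {s | dth g n s = ⊤}.Infinite := by
  constructor
  · rintro ⟨x, x', h, h', I, lo, i1, i2, nx, nm⟩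
    rw [(blk_uniq hm h).1] at i1
    rw [(blk_uniq hm h').2] at i2
    obtain ⟨k, j, hj, e⟩ := cut lo i2 nm
    rcases hj with rfl | ⟨rfl, hj⟩
    · obtain ⟨b, h1, h2⟩ := nx (mk g k k) ((e _).2 (by
        rw [cls_mk]
        exact Prod.Lex.toLex_lt_toLex.2 (.inr ⟨rfl, by simp⟩)))
      exact absurd (le_last ((e b).1 h1)) h2.not_ge
    · rw [e, cls_mk, Prod.Lex.toLex_lt_toLex] at i1 i2
      simp at i1 i2
      rwa [show n = k by omega]
  · refine fun h => ⟨_, _, blk_mk n, blk_mk (n + 1), fun a => cls g a.1 < toLex (n, ⊤),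
      fun _ _ h k => (cls_mono h.le).trans_lt k, ?_, ?_, fun a ha => ?_, fun a ha => ?_⟩
    · simp [cls_mk, Prod.Lex.toLex_lt_toLex]
    · simp [cls_mk, Prod.Lex.toLex_lt_toLex]
    · exact (mortal hm ha).imp fun b hb => ⟨hb.1, lt_def.2 (.inl hb.2)⟩
    · obtain ⟨s, h1, h2⟩ := h.exists_gt a.1.2.2
      have e : cls g (aa g n s).1 = toLex (n, ⊤) := by rw [cls_aa, show dth g n s = ⊤ from h1]; rfl
      refine ⟨aa g n s, e.not_lt, lt_def.2 ?_⟩
      rcases (not_lt.1 ha).lt_or_eq with c | c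
      · exact .inl (e ▸ c)
      · refine .inr ⟨e.trans c, ?_⟩
        rw [of_cls (e.trans c).symm]
        simp [zz, aa, h2]

end Pool.Agent.H.MP_d52dcb_lc
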