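import Pool.Agent.H.MP_d52dcb_lc.Ord
import Pool.Agent.Lib.helper13.KAPI

namespace Pool.Agent.H.MP_d52dcb_lc

open Classical Pool.Agent.Lib.PR Pool.Agent.Lib.KAPI Nat.Partrec Encodable

def On (σ : Str) (f : ℕ → Bool) : Prop := ∀ i < σ.length, σ[i]? = some (f i)

def lt (ρ τ : Str) : Prop :=
  ∃ i < ρ.length, (∀ j < i, ρ[j]? = τ[j]?) ∧ ρ[i]? = some false ∧ τ[i]? = some true

def Lx (f h : ℕ → Bool) : Prop := toLex f < toLex h

theorem lx_iff {f h : ℕ → Bool} :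
    Lx f h ↔ ∃ n, (∀ i < n, f i = h i) ∧ f n = false ∧ h n = true := by
  refine exists_congr fun n => and_congr Iff.rfl ?_
  show f n < h n ↔ _
  cases f n <;> cases h n <;> simp

theorem on_pre (f n) : On (pre f n) f := fun i hi => by
  simp only [pre, List.length_ofFn] at hi ⊢
  simp [hi]

theorem On.pref {ρ τ : Str} {f} (h : On τ f) (k : ρ <+: τ) : On ρ f := fun i hi => by
  obtain ⟨t, rfl⟩ := k
  rw [← h i (by simp; omega), List.getElem?_append_left hi]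

theorem On.eq {ρ : Str} {f} (h : On ρ f) : pre f ρ.length = ρ :=
  List.ext_getElem? fun i => by
    by_cases k : i < ρ.length
    · rw [h i k, on_pre f _ i (by simpa using k)]
    · rw [List.getElem?_eq_none (by simpa using k), List.getElem?_eq_none (by simpa using k)]

theorem on_iff {ρ : Str} {f} : pre f ρ.length = ρ ↔ On ρ f := ⟨fun h => h ▸ on_pre _ _, On.eq⟩

theorem On.le {ρ τ : Str} {f} (h : On ρ f) (k : On τ f) (l : ρ.length ≤ τ.length) : ρ <+: τ := by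
  rw [← h.eq, ← k.eq, ← take_pre f l]
  exact List.take_prefix _ _

theorem On.agree {ρ : Str} {f h} (a : On ρ f) (b : ∀ i < ρ.length, f i = h i) : On ρ h :=
  fun i hi => b i hi ▸ a i hi

theorem lt_lx {ρ τ f h} (a : On ρ f) (b : On τ h) (c : lt ρ τ) : Lx f h := by
  obtain ⟨i, h1, h2, h3, h4⟩ := c
  have h5 : i < τ.length := (List.getElem?_eq_some_iff.1 h4).1
  refine lx_iff.2 ⟨i, fun j hj => ?_, ?_, ?_⟩
  · have := h2 j hj
    rwa [a j (by omega), b j (by omega), Option.some_inj] at this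
  · rwa [a i h1, Option.some_inj] at h3
  · rwa [b i h5, Option.some_inj] at h4

theorem lx_lt {f h} (c : Lx f h) : ∃ i, (∀ j < i, f j = h j) ∧
    ∀ ρ τ, On ρ f → On τ h → i < ρ.length → i < τ.length → lt ρ τ := by
  obtain ⟨i, h1, h2, h3⟩ := lx_iff.1 c
  refine ⟨i, h1, fun ρ τ a b p q => ⟨i, p, fun j hj => ?_, h2 ▸ a i p, h3 ▸ b i q⟩⟩
  rw [a j (by omega), b j (by omega), h1 j hj]

theorem lx_tot {f h : ℕ → Bool} (e : f ≠ h) : Lx f h ∨ Lx h f :=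
  lt_or_gt_of_ne (a := toLex f) (b := toLex h) e

def Pre (c : Code) (σ : Str) : Prop := ∀ i ∈ List.range σ.length, encode (σ.getD i false) ∈ c.eval i

noncomputable def fn (c : Code) (i : ℕ) : Bool := cd (1 ∈ c.eval i)

theorem fn_eq {c : Code} {i : ℕ} {b : Bool} (h : encode b ∈ c.eval i) : fn c i = b := by
  cases b
  · exact Bool.eq_false_iff.2 fun k => absurd (Part.mem_unique h (cd_true.1 k)) (by decide)
  · exact cd_true.2 h

theorem pre_iff {c : Code} (h : ∀ i, encode (fn c i) ∈ c.eval i) {σ} : Pre c σ ↔ On σ (fn c) := by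
  refine ⟨fun a i hi => ?_, fun a i hi => ?_⟩
  · rw [fn_eq (a i (List.mem_range.2 hi))]
    simp [hi]
  · rw [List.getD_eq_getElem?_getD, a i (List.mem_range.1 hi)]
    exact h i

theorem ex_code {f : ℕ → Bool} (h : Computable f) :
    ∃ c : Code, f = fn c ∧ ∀ i, encode (fn c i) ∈ c.eval i := by
  obtain ⟨c, hc⟩ := Code.exists_code.1 h
  have : ∀ i, encode (f i) ∈ c.eval i := fun i => by simp [hc]
  exact ⟨c, funext fun i => (fn_eq (this i)).symm, fun i => (fn_eq (this i)).symm ▸ this i⟩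

def Path (T : Set Str) (f : ℕ → Bool) : Prop := ∀ n, pre f n ∈ T

def Iso (T : Set Str) (σ : Str) : Prop :=
  σ ∈ T ∧ ∀ ρ ∈ T, ∀ ρ' ∈ T, σ <+: ρ → σ <+: ρ' → ¬ lt ρ ρ'

def NB (T : Set Str) (s : Str → Str → Prop) (U : Str → Prop) : Prop :=
  ∀ ρ ∈ T, U ρ → ∃ ρ' ∈ T, ∃ ρ'' ∈ T, ρ <+: ρ' ∧ s ρ' ρ'' ∧ U ρ''

def BF (T : Set Str) (l : ℕ → Str) (n : ℕ) : Prop :=
  (∀ i < n, lt (l i) (l (i + 1)) ∧ ∀ ρ ∈ T, ¬ (lt (l i) ρ ∧ lt ρ (l (i + 1)))) ∧
    NB T lt (lt · (l 0)) ∧ NB T (fun a b => lt b a) (lt (l n))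

def QF (T : Set Str) (P : Str → Prop) (α β : Str) : Prop :=
  (∀ m, ∃ σ, P σ ∧ m ≤ σ.length ∧ ∃ ρ ∈ T, σ.take m <+: ρ ∧ lt ρ σ) ∧
    (∀ ρ ∈ T, ∀ σ, lt σ ρ → (∃ σ', P σ' ∧ σ'.length = σ.length ∧ σ' ≠ σ) ∨
      ∃ ρ' ∈ T, ∃ ρ'' ∈ T, ρ <+: ρ' ∧ lt ρ'' ρ' ∧ ∃ σ', P σ' ∧ lt σ' ρ'') ∧
    ∃ σ, P σ ∧ lt α σ ∧ lt σ β

structure Ctx (T : Set Str) {L : Type} [LinearOrder L] (ψ : L → ℕ → Bool) : Prop where
  pc : ∀ σ τ : Str, σ ++ τ ∈ T → σ ∈ T
  nd : ∀ σ ∈ T, ∃ b : Bool, σ ++ [b] ∈ T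
  cp : ∀ f, Path T f → Computable f
  pa : ∀ x, Path T (ψ x)
  iso : ∀ x, ∃ σ, On σ (ψ x) ∧ ∀ h, Path T h → On σ h → h = ψ x
  su : ∀ f σ, Path T f → On σ f → (∀ h, Path T h → On σ h → h = f) → ∃ x, ψ x = f
  or : ∀ x y, x < y ↔ Lx (ψ x) (ψ y)

variable {T : Set Str} {L : Type} [LinearOrder L] {ψ : L → ℕ → Bool}

theorem Path.mem {f σ} (h : Path T f) (k : On σ f) : σ ∈ T := k.eq ▸ h _

theorem chain (pc : ∀ σ τ : Str, σ ++ τ ∈ T → σ ∈ T) {P : ℕ → Str → Prop} {σ : Str} (h : σ ∈ T)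
    (st : ∀ k, ∀ ρ ∈ T, σ <+: ρ → ∃ τ ∈ T, ρ <+: τ ∧ ρ.length < τ.length ∧ P k τ) :
    ∃ f, Path T f ∧ On σ f ∧ ∀ k, ∃ τ, On τ f ∧ P k τ := by
  choose! F f1 f2 f3 f4 using st
  let s : ℕ → Str := fun k => Nat.rec σ F k
  have a : ∀ k, s k ∈ T ∧ σ <+: s k ∧ k ≤ (s k).length := fun k => by
    induction k with
    | zero => exact ⟨h, List.prefix_rfl, Nat.zero_le _⟩
    | succ k ih => exact ⟨f1 _ _ ih.1 ih.2.1, ih.2.1.trans (f2 _ _ ih.1 ih.2.1),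
        ih.2.2.trans_lt (f3 _ _ ih.1 ih.2.1)⟩
  have b : ∀ k m, k ≤ m → s k <+: s m := fun k m e => by
    induction e with
    | refl => exact List.prefix_rfl
    | step _ ih => exact ih.trans (f2 _ _ (a _).1 (a _).2.1)
  have c : ∀ k, On (s k) fun i => (s (i + 1)).getD i false := fun k i hi => by
    have p : i < (s (i + 1)).length := (a _).2.2
    obtain ⟨t, ht⟩ := b k (max k (i + 1)) (le_max_left _ _)
    obtain ⟨u, hu⟩ := b (i + 1) (max k (i + 1)) (le_max_right _ _)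
    rw [← List.getElem?_append_left (l₂ := t) hi, ht, ← hu, List.getElem?_append_left p]
    simp [p]
  refine ⟨_, fun n => ?_, c 0, fun k => ⟨_, c (k + 1), f4 _ _ (a k).1 (a k).2.1⟩⟩
  obtain ⟨t, ht⟩ := (on_pre _ n).le (c n) (by simpa using (a n).2.2)
  exact pc _ t (ht ▸ (a n).1)

namespace Ctx

variable (H : Ctx T ψ)
include H

theorem path {σ} (h : σ ∈ T) : ∃ f, Path T f ∧ On σ f :=
  (chain H.pc (P := fun _ _ => True) h fun _ ρ hρ _ => (H.nd ρ hρ).elim fun b hb =>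
    ⟨_, hb, List.prefix_append _ _, by simp, trivial⟩).imp fun _ h => ⟨h.1, h.2.1⟩

theorem dens {σ} (h : σ ∈ T) : ∃ x, On σ (ψ x) := by
  by_contra hn
  obtain ⟨f, f1, -, f3⟩ := chain H.pc (P := fun k τ => ¬ On τ (fn (Denumerable.ofNat Code k))) h
    fun k ρ hρ e => by
      obtain ⟨u, u1, u2, u3⟩ : ∃ u, Path T u ∧ On ρ u ∧ u ≠ fn (Denumerable.ofNat Code k) := by
        by_contra c
        push Not at c
        obtain ⟨u, u1, u2⟩ := H.path hρ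
        obtain ⟨x, hx⟩ := H.su u ρ u1 u2 fun v v1 v2 => (c v v1 v2).trans (c u u1 u2).symm
        exact hn ⟨x, hx ▸ u2.pref e⟩
      obtain ⟨i, hi⟩ := Function.ne_iff.1 u3
      refine ⟨pre u (ρ.length + i + 1), u1 _, u2.le (on_pre _ _) (by simp; omega), by simp,
        fun c => hi ?_⟩
      have := c i (by simp)
      rwa [on_pre u _ i (by simp), Option.some_inj] at this
  obtain ⟨c, rfl, -⟩ := ex_code (H.cp f f1)
  obtain ⟨τ, h1, h2⟩ := f3 (encode c)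
  exact h2 (by simpa using h1)

def Rep (_ : Ctx T ψ) (σ : Str) (x : L) : Prop := On σ (ψ x) ∧ ∀ h, Path T h → On σ h → h = ψ x

theorem iso_iff {σ} : Iso T σ ↔ ∃ x, H.Rep σ x := by
  constructor
  · rintro ⟨h1, h2⟩
    obtain ⟨x, hx⟩ := H.dens h1
    have k : ∀ f h, Path T f → Path T h → On σ f → On σ h → ¬ Lx f h := fun f h a b c d e => by
      obtain ⟨i, -, hi⟩ := lx_lt e
      exact h2 _ (a (σ.length + i + 1)) _ (b (σ.length + i + 1)) (c.le (on_pre _ _) (by simp; omega))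
        (d.le (on_pre _ _) (by simp; omega))
        (hi _ _ (on_pre _ _) (on_pre _ _) (by simp) (by simp))
    exact ⟨x, hx, fun h a b => by_contra fun e =>
      (lx_tot e).elim (k _ _ a (H.pa x) b hx) (k _ _ (H.pa x) a hx b)⟩
  · rintro ⟨x, h1, h2⟩
    refine ⟨(H.pa x).mem h1, fun ρ a ρ' b c d e => ?_⟩
    obtain ⟨u, u1, u2⟩ := H.path a
    obtain ⟨v, v1, v2⟩ := H.path b
    have := lt_lx u2 v2 e
    rw [h2 u u1 (u2.pref c), h2 v v1 (v2.pref d)] at this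
    exact lt_irrefl _ this

theorem lo {ρ τ a b} (h : On ρ (ψ a)) (k : On τ (ψ b)) (e : lt ρ τ) : a < b :=
  (H.or _ _).2 (lt_lx h k e)

theorem rep_l {σ x a} (h : H.Rep σ x) (e : a < x) :
    ∃ N, ∀ ρ, On ρ (ψ a) → N ≤ ρ.length → lt ρ σ := by
  obtain ⟨i, h1, h2⟩ := lx_lt ((H.or _ _).1 e)
  refine ⟨i + 1, fun ρ b c => h2 _ _ b h.1 c (not_le.1 fun d => ?_)⟩
  have := (H.or _ _).1 e
  rw [h.2 _ (H.pa a) (h.1.agree fun j hj => (h1 j (by omega)).symm)] at this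
  exact lt_irrefl _ this

theorem rep_r {σ x a} (h : H.Rep σ x) (e : x < a) :
    ∃ N, ∀ ρ, On ρ (ψ a) → N ≤ ρ.length → lt σ ρ := by
  obtain ⟨i, h1, h2⟩ := lx_lt ((H.or _ _).1 e)
  refine ⟨i + 1, fun ρ b c => h2 _ _ h.1 b (not_le.1 fun d => ?_) c⟩
  have := (H.or _ _).1 e
  rw [h.2 _ (H.pa a) (h.1.agree fun j hj => h1 j (by omega))] at this
  exact lt_irrefl _ this

theorem rep_lt {σ τ x y} (h : H.Rep σ x) (k : H.Rep τ y) : lt σ τ ↔ x < y := by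
  refine ⟨H.lo h.1 k.1, fun e => ?_⟩
  obtain ⟨i, h1, h2⟩ := lx_lt ((H.or _ _).1 e)
  have := (H.or _ _).1 e
  refine h2 _ _ h.1 k.1 (not_le.1 fun d => ?_) (not_le.1 fun d => ?_)
  · rw [h.2 _ (H.pa y) (h.1.agree fun j hj => h1 j (by omega))] at this
    exact lt_irrefl _ this
  · rw [k.2 _ (H.pa x) (k.1.agree fun j hj => (h1 j (by omega)).symm)] at this
    exact lt_irrefl _ this

theorem nb {r : L → L → Prop} {s : Str → Str → Prop} {U : Str → Prop} {I : L → Prop}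
    (ha : ∀ ρ τ a b, On ρ (ψ a) → On τ (ψ b) → s ρ τ → r a b)
    (hb : ∀ a b, r a b → ∃ i, ∀ ρ τ, On ρ (ψ a) → On τ (ψ b) → i < ρ.length → i < τ.length → s ρ τ)
    (h1 : ∀ ρ a, On ρ (ψ a) → U ρ → I a)
    (h2 : ∀ a, I a → ∃ N, ∀ ρ, On ρ (ψ a) → N ≤ ρ.length → U ρ) :
    NB T s U ↔ ∀ a, I a → ∃ b, I b ∧ r a b := by
  refine ⟨fun h a ia => ?_, fun h ρ hρ u => ?_⟩
  · obtain ⟨N, hN⟩ := h2 a ia
    obtain ⟨σ, s1, s2⟩ := H.iso a
    obtain ⟨ρ', p1, ρ'', p2, p3, p4, p5⟩ := h _ (H.pa a (N + σ.length)) (hN _ (on_pre _ _) (by simp))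
    obtain ⟨a', q1⟩ := H.dens p1
    obtain ⟨b, q2⟩ := H.dens p2
    rw [s2 _ (H.pa a') ((q1.pref p3).pref (s1.le (on_pre _ _) (by simp)))] at q1
    exact ⟨b, h1 _ _ q2 p5, ha _ _ _ _ q1 q2 p4⟩
  · obtain ⟨a, q⟩ := H.dens hρ
    obtain ⟨b, ib, e⟩ := h a (h1 _ _ q u)
    obtain ⟨i, hi⟩ := hb a b e
    obtain ⟨N, hN⟩ := h2 b ib
    exact ⟨_, H.pa a (ρ.length + i + 1), _, H.pa b (N + i + 1), q.le (on_pre _ _) (by simp; omega),
      hi _ _ (on_pre _ _) (on_pre _ _) (by simp) (by simp),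
      hN _ (on_pre _ _) (by simp; omega)⟩

theorem nb_r {U : Str → Prop} {I : L → Prop} (h1 : ∀ ρ a, On ρ (ψ a) → U ρ → I a)
    (h2 : ∀ a, I a → ∃ N, ∀ ρ, On ρ (ψ a) → N ≤ ρ.length → U ρ) :
    NB T (fun a b => lt b a) U ↔ ∀ a, I a → ∃ b, I b ∧ b < a :=
  H.nb (r := fun a b => b < a) (fun _ _ _ _ a b c => H.lo b a c)
    (fun _ _ e => (lx_lt ((H.or _ _).1 e)).imp fun _ h _ _ a b c d => h.2 _ _ b a d c) h1 h2

theorem bf_iff {l : ℕ → Str} {x : ℕ → L} {n} (h : ∀ i ≤ n, H.Rep (l i) (x i)) :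
    BF T l n ↔ Blk n x := by
  refine and_congr (forall₂_congr fun i hi => ?_) (and_congr ?_ ?_)
  · have a := h i hi.le
    have b := h (i + 1) hi
    refine and_congr (H.rep_lt a b) ⟨fun k c h1 h2 => ?_, fun k ρ hρ e => ?_⟩
    · obtain ⟨N, hN⟩ := H.rep_r a h1
      obtain ⟨M, hM⟩ := H.rep_l b h2
      exact k _ (H.pa c (N + M)) ⟨hN _ (on_pre _ _) (by simp), hM _ (on_pre _ _) (by simp)⟩
    · obtain ⟨c, hc⟩ := H.dens hρ
      exact k (H.lo a.1 hc e.1) (H.lo hc b.1 e.2)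
  · have a := h 0 (Nat.zero_le _)
    rw [H.nb (r := (· < ·)) (I := (· < x 0)) (fun _ _ _ _ => H.lo)
      (fun _ _ e => (lx_lt ((H.or _ _).1 e)).imp fun _ h => h.2)
      (fun _ _ b c => H.lo b a.1 c) fun _ => H.rep_l a]
    refine forall_congr' fun y => ⟨fun k e => (k e.1).elim fun b hb => e.2 hb.2 hb.1, fun k e => ?_⟩
    exact ((not_covBy_iff e).1 k).imp fun _ h => h.symm
  · have a := h n le_rfl
    rw [H.nb_r (I := (x n < ·)) (fun _ _ b c => H.lo a.1 b c) fun _ => H.rep_r a]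
    exact forall_congr' fun y => ⟨fun k e => (k e.1).elim fun b hb => e.2 hb.1 hb.2,
      fun k e => (not_covBy_iff e).1 k⟩

theorem q2 {q} : (∀ ρ ∈ T, ∀ σ, lt σ ρ → (∃ σ', On σ' q ∧ σ'.length = σ.length ∧ σ' ≠ σ) ∨
    ∃ ρ' ∈ T, ∃ ρ'' ∈ T, ρ <+: ρ' ∧ lt ρ'' ρ' ∧ ∃ σ', On σ' q ∧ lt σ' ρ'') ↔
      ∀ a, Lx q (ψ a) → ∃ b, Lx q (ψ b) ∧ b < a := by
  rw [← H.nb_r (U := fun ρ => ∃ σ, On σ q ∧ lt σ ρ) (fun _ _ a ⟨_, b, c⟩ => lt_lx b a c)
    fun a e => (lx_lt e).elim fun i h => ⟨i + 1, fun ρ b c =>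
      ⟨_, on_pre q (i + 1), h.2 _ _ (on_pre _ _) b (by simp) c⟩⟩]
  refine forall₂_congr fun ρ _ => ⟨fun k ⟨σ, a, b⟩ => (k σ b).resolve_left ?_, fun k σ b => ?_⟩
  · rintro ⟨σ', c, d, e⟩
    exact e (by rw [← c.eq, d, a.eq])
  · by_cases a : On σ q
    · exact .inr (k ⟨σ, a, b⟩)
    · exact .inl ⟨_, on_pre q σ.length, by simp, fun e => a (on_iff.1 e)⟩

theorem of_qf {q α β x y} (a : H.Rep α x) (b : H.Rep β y) (h : QF T (On · q) α β) :
    ∃ I : L → Prop, (∀ a b, a < b → I b → I a) ∧ I x ∧ ¬ I y ∧ (∀ a, I a → ∃ b, I b ∧ a < b) ∧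
      ∀ a, ¬ I a → ∃ b, ¬ I b ∧ b < a := by
  obtain ⟨h1, h2, σ, h3, h4, h5⟩ := h
  have k : ∀ m, ∃ b, Lx (ψ b) q ∧ ∀ i < m, ψ b i = q i := fun m => by
    obtain ⟨σ, s1, s2, ρ, s3, s4, s5⟩ := h1 m
    obtain ⟨b, hb⟩ := H.dens s3
    refine ⟨b, lt_lx hb s1 s5, fun i hi => ?_⟩
    have p : i < (σ.take m).length := by simp; omega
    have := hb.pref s4 i p
    rwa [s1.pref (List.take_prefix m σ) i p, Option.some_inj, eq_comm] at this
  have e : ∀ a, ¬ Lx (ψ a) q ↔ Lx q (ψ a) := fun a => by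
    refine ⟨fun e => (lx_tot fun c => ?_).resolve_left e, fun e c => lt_asymm e c⟩
    obtain ⟨τ, t1, t2⟩ := H.iso a
    obtain ⟨b, b1, b2⟩ := k τ.length
    rw [t2 _ (H.pa b) (t1.agree fun i hi => by rw [b2 i hi, c]), c] at b1
    exact lt_irrefl _ b1
  refine ⟨fun a => Lx (ψ a) q, fun a b h k => lt_trans ((H.or _ _).1 h) k, lt_lx a.1 h3 h4,
    (e _).2 (lt_lx h3 b.1 h5), fun a h => ?_, by simpa only [e] using H.q2.1 h2⟩
  obtain ⟨i, p1, p2, p3⟩ := lx_iff.1 h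
  obtain ⟨b, b1, b2⟩ := k (i + 1)
  exact ⟨b, b1, (H.or _ _).2 (lx_iff.2 ⟨i, fun j hj => by rw [p1 j hj, b2 j (by omega)], p2,
    by rw [b2 i (by omega), p3]⟩)⟩

theorem to_qf {α β x y} (a : H.Rep α x) (b : H.Rep β y) {I : L → Prop}
    (lo : ∀ a b, a < b → I b → I a) (ix : I x) (iy : ¬ I y) (nx : ∀ a, I a → ∃ b, I b ∧ a < b)
    (nm : ∀ a, ¬ I a → ∃ b, ¬ I b ∧ b < a) : ∃ q, Path T q ∧ QF T (On · q) α β := by
  obtain ⟨q, q1, -, -⟩ := chain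
    (T := {σ | ∃ a, I a ∧ On σ (ψ a) ∧ ∀ b, I b → a < b → On σ (ψ b)})
    (fun σ τ ⟨a, h⟩ => ⟨a, h.1, h.2.1.pref (List.prefix_append _ _), fun b c d =>
      (h.2.2 b c d).pref (List.prefix_append _ _)⟩) (σ := []) (P := fun _ _ => True)
    ⟨x, ix, fun _ h => by simp at h, fun _ _ _ _ h => by simp at h⟩ fun _ ρ ⟨a, h1, h2, h3⟩ _ => by
      have s : ∀ f c, On ρ f → f ρ.length = c → On (ρ ++ [c]) f := fun f c h e i hi => by
        rcases (show i < ρ.length ∨ i = ρ.length by simp at hi; omega) with k | rfl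
        · rw [List.getElem?_append_left k, h i k]
        · simp [e]
      by_cases c : ∃ b, I b ∧ a ≤ b ∧ ψ b ρ.length = true
      · obtain ⟨b, b1, b2, b3⟩ := c
        have b4 : On ρ (ψ b) := b2.lt_or_eq.elim (h3 b b1) fun e => e ▸ h2
        refine ⟨ρ ++ [true], ⟨b, b1, s _ _ b4 b3, fun d d1 d2 => ?_⟩, List.prefix_append _ _,
          by simp, trivial⟩
        have d3 := h3 d d1 (b2.trans_lt d2)
        refine s _ _ d3 (by_contra fun e => d2.not_gt ((H.or _ _).2 (lx_iff.2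
          ⟨ρ.length, fun i hi => ?_, by simpa using e, b3⟩)))
        rw [← Option.some_inj, ← d3 i hi, b4 i hi]
      · push Not at c
        exact ⟨ρ ++ [false], ⟨a, h1, s _ _ h2 (by simpa using c a h1 le_rfl), fun d d1 d2 =>
          s _ _ (h3 d d1 d2) (by simpa using c d d1 d2.le)⟩, List.prefix_append _ _, by simp, trivial⟩
  have k : ∀ n a, I a → ∃ b, I b ∧ a < b ∧ ∀ i < n, ψ b i = q i := fun n a ia => by
    obtain ⟨c, c1, -, c3⟩ := q1 n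
    obtain ⟨b, b1, b2⟩ := nx (max a c) (by rcases max_choice a c with e | e <;> rwa [e])
    refine ⟨b, b1, (le_max_left _ _).trans_lt b2, fun i hi => ?_⟩
    have := c3 b b1 ((le_max_right _ _).trans_lt b2) i (by simpa using hi)
    rwa [on_pre q n i (by simpa using hi), Option.some_inj, eq_comm] at this
  have k1 : ∀ a, I a → Lx (ψ a) q := fun a ia => by
    obtain ⟨c, c1, c2⟩ := nx a ia
    refine lt_of_lt_of_le ((H.or _ _).1 c2) (not_lt.1 fun e => ?_)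
    obtain ⟨i, p1, p2, p3⟩ := lx_iff.1 e
    obtain ⟨b, -, b2, b3⟩ := k (i + 1) c c1
    exact b2.not_gt ((H.or _ _).2 (lx_iff.2 ⟨i, fun j hj => by rw [b3 j (by omega), p1 j hj],
      by rw [b3 i (by omega), p2], p3⟩))
  have k2 : ∀ a, ¬ I a → Lx q (ψ a) := fun a ia => by
    obtain ⟨c, c1, c2⟩ := nm a ia
    refine lt_of_le_of_lt (not_lt.1 fun e => ?_) ((H.or _ _).1 c2)
    obtain ⟨i, p1, p2, p3⟩ := lx_iff.1 e
    obtain ⟨b, b1, -, b3⟩ := k (i + 1) x ix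
    exact c1 (lo _ _ ((H.or _ _).2 (lx_iff.2 ⟨i, fun j hj => by rw [b3 j (by omega), p1 j hj],
      p2, by rw [b3 i (by omega), p3]⟩)) b1)
  refine ⟨q, fun n => (q1 n).elim fun a h => (H.pa a).mem h.2.1, fun m => ?_,
    H.q2.2 fun c e => ?_, ?_⟩
  · obtain ⟨b, b1, -, b3⟩ := k m x ix
    obtain ⟨i, -, hi⟩ := lx_lt (k1 b b1)
    refine ⟨_, on_pre q (m + i + 1), by simp; omega, _, H.pa b (m + i + 1), ?_,
      hi _ _ (on_pre _ _) (on_pre _ _) (by simp) (by simp)⟩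
    rw [take_pre _ (by omega)]
    exact ((on_pre q m).agree fun i hi => (b3 i (by simpa using hi)).symm).le (on_pre _ _)
      (by simp; omega)
  · exact (nm c fun h => lt_asymm e (k1 c h)).imp fun d h => ⟨k2 d h.1, h.2⟩
  · obtain ⟨i, p1, p2⟩ := lx_lt (k1 x ix)
    obtain ⟨j, r1, r2⟩ := lx_lt (k2 y iy)
    have qp : Path T q := fun n => (q1 n).elim fun a h => (H.pa a).mem h.2.1
    refine ⟨_, on_pre q (i + j + 1), p2 _ _ a.1 (on_pre _ _) (not_le.1 fun d => ?_) (by simp),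
      r2 _ _ (on_pre _ _) b.1 (by simp) (not_le.1 fun d => ?_)⟩
    · have := k1 x ix
      rw [a.2 q qp (a.1.agree fun t ht => p1 t (by omega))] at this
      exact lt_irrefl _ this
    · have := k2 y iy
      rw [b.2 q qp (b.1.agree fun t ht => (r1 t (by omega)).symm)] at this
      exact lt_irrefl _ this

/-- the description of a gap inside the tree -/
def GF (T : Set Str) (n : ℕ) (l l' : List Str) (c : Code) : Prop :=
  (∀ i ≤ n, Iso T (l.getD i [])) ∧ (∀ i ≤ n + 1, Iso T (l'.getD i [])) ∧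
    BF T (l.getD · []) n ∧ BF T (l'.getD · []) (n + 1) ∧ QF T (Pre c) (l.getD n []) (l'.getD 0 [])

theorem gap_iff (n : ℕ) : Gap L n ↔ ∃ w : List Str × List Str × Code, GF T n w.1 w.2.1 w.2.2 := by
  constructor
  · rintro ⟨x, x', h, h', I, lo, i1, i2, nx, nm⟩
    choose s hs using H.iso
    have r : ∀ (x : ℕ → L) n, ∀ i ≤ n, H.Rep (((List.range (n + 1)).map fun i => s (x i)).getD i [])
        (x i) := fun x n i hi => by
      rw [List.getD_eq_getElem?_getD, List.getElem?_map, List.getElem?_range (by omega)]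
      exact hs _
    obtain ⟨q, q1, q2⟩ := H.to_qf (r x n n le_rfl) (r x' (n + 1) 0 (Nat.zero_le _)) lo i1 i2 nx nm
    obtain ⟨c, rfl, hc⟩ := ex_code (H.cp q q1)
    refine ⟨(_, _, c), fun i hi => H.iso_iff.2 ⟨_, r x n i hi⟩,
      fun i hi => H.iso_iff.2 ⟨_, r x' _ i hi⟩, (H.bf_iff (r x n)).2 h,
      (H.bf_iff (r x' _)).2 h', ?_⟩
    rwa [show Pre c = (On · (fn c)) from funext fun _ => propext (pre_iff hc)]
  · rintro ⟨⟨l, l', c⟩, h1, h2, h3, h4, h5⟩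
    have : Nonempty L := (H.iso_iff.1 (h1 0 (Nat.zero_le _))).elim fun x _ => ⟨x⟩
    choose! x hx using fun i hi => H.iso_iff.1 (h1 i hi)
    choose! x' hx' using fun i hi => H.iso_iff.1 (h2 i hi)
    have hc : ∀ i, encode (fn c i) ∈ c.eval i := fun i => by
      obtain ⟨σ, s1, s2, -⟩ := h5.1 (i + 1)
      have := s1 i (List.mem_range.2 s2)
      rwa [fn_eq this]
    rw [show Pre c = (On · (fn c)) from funext fun _ => propext (pre_iff hc)] at h5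
    exact ⟨x, x', (H.bf_iff hx).1 h3, (H.bf_iff hx').1 h4,
      H.of_qf (hx n le_rfl) (hx' 0 (Nat.zero_le _)) h5⟩

end Ctx

end Pool.Agent.H.MP_d52dcb_lc
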